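import Pool.Agent.SGJ.Basic

set_option autoImplicit false

/-!
# `σ N ≤ N exp (2 ∑_{p ∣ N} 1 / p)`
-/

namespace Pool.Agent.SGK

open Finset

lemma sigma_exp (N : ℕ) (hN : 1 ≤ N) : (ArithmeticFunction.sigma 1 N : ℝ) ≤
    N * Real.exp (2 * ∑ p ∈ N.primeFactors, (1 : ℝ) / p) := by
  revert hN
  refine Nat.recOnPosPrimePosCoprime (motive := fun N => 1 ≤ N →
    (ArithmeticFunction.sigma 1 N : ℝ) ≤
    N * Real.exp (2 * ∑ p ∈ N.primeFactors, (1 : ℝ) / p)) ?_ ?_ ?_ ?_ N
  · intro p k hp hk _
    have h1 : (ArithmeticFunction.sigma 1 (p ^ k) : ℝ) = ∑ i ∈ range (k + 1), (p : ℝ) ^ i := by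
      rw [ArithmeticFunction.sigma_one_apply_prime_pow hp]
      push_cast
      rfl
    have hp2 : (2 : ℝ) ≤ p := by exact_mod_cast hp.two_le
    have hp0 : (0 : ℝ) < p := by linarith
    rw [h1, Nat.primeFactors_prime_pow (by omega) hp, sum_singleton, geom_sum_eq (by linarith)]
    have h2 : 1 + 2 / (p : ℝ) ≤ Real.exp (2 * (1 / p)) := by
      have := Real.add_one_le_exp (2 * (1 / (p : ℝ)))
      have e : 2 * (1 / (p : ℝ)) = 2 / p := by ring
      rw [e] at this ⊢
      linarith
    push_cast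
    calc ((p : ℝ) ^ (k + 1) - 1) / (p - 1) ≤ (p : ℝ) ^ k * (1 + 2 / p) := by
          rw [div_le_iff₀ (by linarith), pow_succ]
          have hpk : (0 : ℝ) < (p : ℝ) ^ k := by positivity
          have e1 : (p : ℝ) ^ k * (1 + 2 / p) * (p - 1) =
            (p : ℝ) ^ k * p + (p : ℝ) ^ k * (1 - 2 / p) := by
            field_simp
            ring
          rw [e1]
          have e2 : 0 ≤ 1 - 2 / (p : ℝ) := by
            rw [sub_nonneg, div_le_one hp0]
            exact hp2
          have : 0 ≤ (p : ℝ) ^ k * (1 - 2 / p) := by positivity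
          linarith
      _ ≤ _ := by gcongr
  · intro h
    omega
  · intro _
    simp
  · intro a b ha hb hab iha ihb _
    rw [ArithmeticFunction.isMultiplicative_sigma.map_mul_of_coprime hab, hab.primeFactors_mul,
      sum_union hab.disjoint_primeFactors, mul_add, Real.exp_add]
    have h1 := iha (by omega)
    have h2 := ihb (by omega)
    push_cast
    calc (ArithmeticFunction.sigma 1 a : ℝ) * (ArithmeticFunction.sigma 1 b : ℝ) ≤
          (a * Real.exp (2 * ∑ p ∈ a.primeFactors, (1 : ℝ) / p)) *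
          (b * Real.exp (2 * ∑ p ∈ b.primeFactors, (1 : ℝ) / p)) := by gcongr
      _ = _ := by ring

end Pool.Agent.SGK
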