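import Pool.Agent.SGK.Cell
import Pool.Agent.SGK.Growth
import Pool.Agent.SGI.Main
import Pool.Agent.SGJ.Lower
import Pool.Agent.SGJ.Count
import Pool.Agent.HP.MKV

set_option autoImplicit false

/-!
# The second step for almost all integers
-/

namespace Pool.Agent.SGK

open Finset Pool.Agent.PnMn Pool.Agent.PnMn.SieveCor Pool.Agent.HP Pool.Agent.SGJ Pool.Agent.SGI
  Filter

lemma dvd_of_once {M n q : ℕ} (hq : q.Prime) (hMq : M ∣ q + 1) (h1 : q ∣ n) (h2 : ¬ q ^ 2 ∣ n) :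
    M ∣ ArithmeticFunction.sigma 1 n := by
  obtain ⟨k, hk⟩ := h1
  have h3 : ¬ q ∣ k := by
    rintro ⟨j, hj⟩
    apply h2
    refine ⟨j, ?_⟩
    rw [hk, hj]
    ring
  rw [hk, mul_comm, sigma_mul hq h3]
  exact hMq.mul_left _

/-- the good case -/
lemma good {ε η : ℝ} (hη : 4 * η = Real.log (1 + ε)) (hε : 0 < ε) {M K n X y : ℕ} {κ c c' : ℝ}
    (_hM : 1 ≤ M) (hX16 : 16 ≤ X) (hLL : 1 ≤ Real.log (Real.log X))
    (hLLη : 4 / η ≤ Real.log (Real.log X)) (hη0 : 0 < η)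
    (hy : y = ⌊Real.log X⌋₊) (hyκ : (y : ℝ) ≤ (X : ℝ) ^ κ)
    (hκ1 : κ ≤ 1 / 2) (hc : c ≤ κ / 2)
    (hn2 : 2 ≤ n) (hnX : n ≤ X) (hnbig : (X : ℝ) ^ (1 / 2 : ℝ) < n)
    (hsp : ((sp ⌊(X : ℝ) ^ κ⌋₊ n : ℕ) : ℝ) ≤ (X : ℝ) ^ (1 / 2 : ℝ))
    (hsq : ¬ ∃ q : ℕ, y < q ∧ q ^ 2 ∣ n)
    (hdiv : ¬ ∀ q ∈ QS (M * K.factorial) y ⌊(X : ℝ) ^ c'⌋₊, ¬ q ∣ n)
    (hpr : ¬ n.Prime)
    (hbad : ∀ m P : ℕ, n = m * P → 2 ≤ m → (m : ℝ) ≤ (X : ℝ) ^ (1 - κ) → P.Prime →
      1 ≤ P → P ≤ X / m → (X : ℝ) ^ κ < P →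
      ¬ (η < ∑ p ∈ (Ioc K y).filter (fun p => p.Prime ∧
        p ∣ ArithmeticFunction.sigma 1 m * P + (ArithmeticFunction.sigma 1 m - 1)), (1 : ℝ) / p) ∧
      ¬ ((∀ q ∈ QS (M * K.factorial) y ⌊(X : ℝ) ^ c⌋₊,
        ¬ q ∣ ArithmeticFunction.sigma 1 m * P + (ArithmeticFunction.sigma 1 m - 1)) ∨
      (∃ q ∈ QS (M * K.factorial) y ⌊(X : ℝ) ^ c⌋₊,
        q ^ 2 ∣ ArithmeticFunction.sigma 1 m * P + (ArithmeticFunction.sigma 1 m - 1)))) :
    ¬ (ff n).Prime ∧ M ∣ ff n + 1 ∧ M ∣ ff (ff n) + 1 ∧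
      ((ff (ff n) : ℕ) : ℝ) ≤ (1 + ε) * ff n := by
  have hX0 : (0 : ℝ) < X := by exact_mod_cast (by omega : 0 < X)
  have hX1 : (1 : ℝ) ≤ X := by exact_mod_cast (by omega : 1 ≤ X)
  obtain ⟨P, hPdef⟩ : ∃ P, P = gpf n := ⟨_, rfl⟩
  have hPp : P.Prime := hPdef ▸ gpf_prime hn2
  have hPn : P ∣ n := hPdef ▸ gpf_dvd hn2
  have hPκ : (X : ℝ) ^ κ < P := by
    by_contra hc'
    push Not at hc'
    have h1 : gpf n ≤ ⌊(X : ℝ) ^ κ⌋₊ := by
      rw [← hPdef]
      exact Nat.le_floor hc'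
    rw [sp_self (by omega) h1] at hsp
    linarith
  obtain ⟨m, hm⟩ := hPn
  have hm1 : 1 ≤ m := by
    rcases Nat.eq_zero_or_pos m with h0 | h0
    · rw [h0] at hm; omega
    · exact h0
  have hm2 : 2 ≤ m := by
    by_contra hc'
    have : m = 1 := by omega
    rw [this, mul_one] at hm
    exact hpr (hm ▸ hPp)
  have hm0 : (0 : ℝ) < m := by exact_mod_cast (by omega : 0 < m)
  have hP0 : (0 : ℝ) < P := by exact_mod_cast hPp.pos
  have hyP : y < P := by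
    have : (y : ℝ) < P := hyκ.trans_lt hPκ
    exact_mod_cast this
  have hPm : ¬ P ∣ m := by
    rintro ⟨k, hk⟩
    apply hsq
    refine ⟨P, hyP, k, ?_⟩
    rw [hm, hk]
    ring
  have hPX : P ≤ X / m := by
    rw [Nat.le_div_iff_mul_le (by omega), ← hm]
    exact hnX
  have hmX : (m : ℝ) ≤ (X : ℝ) ^ (1 - κ) := by
    have h1 : (m : ℝ) * P ≤ X := by
      have : m * P ≤ X := by rw [mul_comm, ← hm]; exact hnX
      exact_mod_cast this
    have h2 : (X : ℝ) ^ (1 - κ) * (X : ℝ) ^ κ = X := by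
      rw [← Real.rpow_add hX0]
      norm_num
    have h3 : (m : ℝ) * (X : ℝ) ^ κ ≤ (X : ℝ) ^ (1 - κ) * (X : ℝ) ^ κ := by
      rw [h2]
      refine le_trans ?_ h1
      gcongr
    exact le_of_mul_le_mul_right h3 (by positivity)
  obtain ⟨hb1, hb2⟩ := hbad m P (by rw [hm, mul_comm]) hm2 hmX hPp hPp.one_le hPX hPκ
  obtain ⟨N, hN⟩ : ∃ N, N = ff n := ⟨_, rfl⟩
  have hσ : N + 1 = ArithmeticFunction.sigma 1 m * (P + 1) := by
    rw [hN, ff_succ (by omega : 1 ≤ n), hm, mul_comm P m, sigma_mul hPp hPm]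
  have ha := sigma_ge hm2
  have hN' : ArithmeticFunction.sigma 1 m * P + (ArithmeticFunction.sigma 1 m - 1) = N := by
    have : ArithmeticFunction.sigma 1 m * (P + 1) =
      ArithmeticFunction.sigma 1 m * P + ArithmeticFunction.sigma 1 m := by ring
    omega
  rw [hN'] at hb1 hb2
  have hnN : n ≤ N := hN ▸ le_ff hn2
  rw [← hN]
  push Not at hb1 hb2 hdiv
  obtain ⟨⟨q, hqQ, hqN⟩, hb3⟩ := hb2
  have hqN2 := hb3 q hqQ
  obtain ⟨⟨hyq, hqc⟩, hqp, hqM⟩ := mem_QS.1 hqQ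
  obtain ⟨q', hq'Q, hq'n⟩ := hdiv
  obtain ⟨⟨hyq', hqc'⟩, hqp', hqM'⟩ := mem_QS.1 hq'Q
  have hq'2 : ¬ q' ^ 2 ∣ n := fun h => hsq ⟨q', hyq', h⟩
  have hd1 : M * K.factorial ∣ N + 1 := by
    rw [hN, ff_succ (by omega : 1 ≤ n)]
    exact dvd_of_once hqp' hqM' hq'n hq'2
  have hd2 : M * K.factorial ∣ ff N + 1 := by
    rw [ff_succ (by omega : 1 ≤ N)]
    exact dvd_of_once hqp hqM hqN hqN2
  refine ⟨?_, (dvd_mul_right _ _).trans hd1, (dvd_mul_right _ _).trans hd2, ?_⟩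
  · intro hNp
    have h1 := (Nat.prime_dvd_prime_iff_eq hqp hNp).1 hqN
    have h2 : (q : ℝ) ≤ (X : ℝ) ^ c :=
      (Nat.cast_le.2 hqc).trans (Nat.floor_le (by positivity))
    have h3 : (X : ℝ) ^ c ≤ (X : ℝ) ^ (1 / 2 : ℝ) :=
      Real.rpow_le_rpow_of_exponent_le hX1 (by linarith)
    have h4 : (n : ℝ) ≤ q := by
      rw [h1]
      exact_mod_cast hnN
    linarith
  · -- growth
    have hN0 : (0 : ℝ) ≤ N := by positivity
    have h1 : ((ff N : ℕ) : ℝ) ≤ (ArithmeticFunction.sigma 1 N : ℝ) := by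
      have := ff_succ (show 1 ≤ N by omega)
      rw [← this]
      push_cast
      linarith
    refine h1.trans ((sigma_exp N (by omega)).trans ?_)
    rw [mul_comm (1 + ε) (N : ℝ)]
    apply mul_le_mul_of_nonneg_left _ hN0
    rw [← Real.exp_log (show 0 < 1 + ε by linarith), ← hη]
    apply Real.exp_le_exp.2
    have h2 : ∑ p ∈ N.primeFactors, (1 : ℝ) / p ≤ 2 * η := by
      rw [← Finset.sum_filter_add_sum_filter_not N.primeFactors (fun p => p ≤ y)]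
      have h3 : ∑ p ∈ N.primeFactors.filter (fun p => p ≤ y), (1 : ℝ) / p ≤ η := by
        refine le_trans ?_ hb1
        apply Finset.sum_le_sum_of_subset_of_nonneg
        · intro p hp
          rw [mem_filter, Nat.mem_primeFactors] at hp
          rw [mem_filter, mem_Ioc]
          refine ⟨⟨?_, hp.2⟩, hp.1.1, hp.1.2.1⟩
          by_contra hpK
          have h4 : p ∣ N + 1 :=
            ((hp.1.1.dvd_factorial).2 (by omega : p ≤ K)).trans
              ((dvd_mul_left _ _).trans hd1)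
          have h5 := (Nat.dvd_add_right hp.1.2.1).1 h4
          exact hp.1.1.one_lt.ne' (Nat.dvd_one.1 h5)
        · intro p _ _
          positivity
      have h4 : ∑ p ∈ N.primeFactors.filter (fun p => ¬ p ≤ y), (1 : ℝ) / p ≤ η := by
        have h5 := big_sum (n := N) hX16 hLL (by omega)
          (by
            have h6 : N ≤ ArithmeticFunction.sigma 1 n := by
              have := ff_succ (show 1 ≤ n by omega)
              omega
            have h7 := sigma_le_sq hX16 (by omega : 1 ≤ n) hnX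
            calc N ≤ X ^ 2 := h6.trans h7
              _ ≤ X ^ 4 := Nat.pow_le_pow_right (by omega) (by norm_num))
          (N.primeFactors.filter (fun p => ¬ p ≤ y))
          (by
            intro p hp
            rw [mem_filter, Nat.mem_primeFactors] at hp
            refine ⟨hp.1.1, hp.1.2.1, ?_⟩
            have e2 : Real.log X < y + 1 := by
              rw [hy]
              exact Nat.lt_floor_add_one _
            have e3 : ((y + 1 : ℕ) : ℝ) ≤ p := by exact_mod_cast (by omega : y + 1 ≤ p)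
            push_cast at e3
            linarith)
        refine h5.trans ?_
        rw [div_le_iff₀ (by linarith)]
        rw [div_le_iff₀ hη0] at hLLη
        linarith
      linarith
    linarith

open scoped Classical in
theorem typical (M : ℕ) (hM : 1 ≤ M) (ε : ℝ) (hε : 0 < ε) (δ : ℝ) (hδ : 0 < δ) :
    ∃ X₀ : ℕ, ∀ X : ℕ, X₀ ≤ X →
    (((Icc 2 X).filter (fun n => ¬ (¬ (ff n).Prime ∧ M ∣ ff n + 1 ∧ M ∣ ff (ff n) + 1 ∧
      ((ff (ff n) : ℕ) : ℝ) ≤ (1 + ε) * ff n))).card : ℝ) ≤ δ * X := by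
  obtain ⟨η, hη⟩ : ∃ η : ℝ, 4 * η = Real.log (1 + ε) := ⟨Real.log (1 + ε) / 4, by ring⟩
  have hη0 : 0 < η := by
    have : 0 < Real.log (1 + ε) := Real.log_pos (by linarith)
    linarith
  obtain ⟨κ, hκ, hκ1, X₁, h1⟩ := mkv (δ / 8) (1 / 2) (by positivity) (by norm_num)
  obtain ⟨K, hK, X₂, h2⟩ := cellK κ hκ hκ1.le η (δ / 32) hη0 (by positivity)
  have hMK : 1 ≤ M * K.factorial := Nat.mul_pos (by omega) (Nat.factorial_pos K)
  obtain ⟨c, hc, hcκ, X₃, h3⟩ := cellM κ hκ hκ1.le (M * K.factorial) hMK (δ / 32) (by positivity)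
  obtain ⟨s, hs, hG⟩ := generalSieve
  have hG' : GS s := hG
  have hs0 : (0 : ℝ) < s := by exact_mod_cast hs
  obtain ⟨A, hA⟩ : ∃ A : ℝ, 3 * Real.exp (-A) ≤ δ / 8 := by
    refine ⟨Real.log (24 / δ), ?_⟩
    rw [Real.exp_neg, Real.exp_log (by positivity)]
    apply le_of_eq
    field_simp
    norm_num
  obtain ⟨X₄, h4⟩ := div (M * K.factorial) hMK (1 / s) (by positivity) A
  obtain ⟨C, hC, hbti⟩ := bti
  obtain ⟨X₅, h5⟩ := log_large (8 / δ + 8 * C / δ + 4)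
  obtain ⟨X₆, h6⟩ := loglog_large (1 + 4 / η)
  obtain ⟨X₇, h7⟩ := pow_large (1 / 2) (8 / δ) (by norm_num)
  obtain ⟨X₈, h8⟩ := log_pow_le 1 κ hκ
  refine ⟨X₁ + X₂ + X₃ + X₄ + X₅ + X₆ + X₇ + X₈ + 16, fun X hX => ?_⟩
  have h1 := h1 X (by omega)
  have h2 := h2 X (by omega)
  have h3 := h3 X (by omega)
  have h4 := h4 X (by omega)
  have h5 := h5 X (by omega)
  have h6 := h6 X (by omega)
  have h7 := h7 X (by omega)
  have h8 := h8 X (by omega)
  have hX16 : 16 ≤ X := by omega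
  have hX0 : (0 : ℝ) < X := by exact_mod_cast (by omega : 0 < X)
  have hX1 : (1 : ℝ) ≤ X := by exact_mod_cast (by omega : 1 ≤ X)
  have hp1 : 0 < 8 / δ := by positivity
  have hp2 : 0 < 8 * C / δ := by positivity
  have hp3 : 0 < 4 / η := by positivity
  have hL4 : 4 ≤ Real.log X := by linarith
  have hL0 : 0 < Real.log X := by linarith
  obtain ⟨y, hy⟩ : ∃ y, y = ⌊Real.log X⌋₊ := ⟨_, rfl⟩
  rw [← hy] at h2 h3 h4
  have hy4 : 4 ≤ y := hy ▸ Nat.le_floor (by exact_mod_cast hL4)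
  have hylt : Real.log X < y + 1 := by
    rw [hy]
    exact Nat.lt_floor_add_one _
  have hyL : (y : ℝ) ≤ Real.log X := by
    rw [hy]
    exact Nat.floor_le hL0.le
  -- the sets
  set A0 := Icc 1 ⌊(X : ℝ) ^ (1 / 2 : ℝ)⌋₊ with hA0
  set A1 := (Icc 1 X).filter
    (fun n => (X : ℝ) ^ (1 / 2 : ℝ) < (sp ⌊(X : ℝ) ^ κ⌋₊ n : ℝ)) with hA1
  set A2 := (Icc 1 X).filter (fun n => ∃ q : ℕ, y < q ∧ q ^ 2 ∣ n) with hA2
  set A3 := (Icc 1 X).filter (fun n => ∀ q ∈ QS (M * K.factorial) y ⌊(X : ℝ) ^ (1 / (s : ℝ))⌋₊,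
    ¬ q ∣ n) with hA3
  set A4 := (Icc 1 X).filter (fun q => q.Prime ∧ q ≡ 0 [MOD 1]) with hA4
  set B := ((Icc 2 X).filter (fun m : ℕ => (m : ℝ) ≤ (X : ℝ) ^ (1 - κ))).biUnion (fun m =>
    (((Icc 1 (X / m)).filter (fun P => P.Prime ∧ η <
      ∑ p ∈ (Ioc K y).filter (fun p => p.Prime ∧
        p ∣ ArithmeticFunction.sigma 1 m * P + (ArithmeticFunction.sigma 1 m - 1)),
        (1 : ℝ) / p)) ∪
    ((Icc 1 (X / m)).filter (fun P : ℕ => P.Prime ∧ (X : ℝ) ^ κ < P ∧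
      ((∀ q ∈ QS (M * K.factorial) y ⌊(X : ℝ) ^ c⌋₊,
        ¬ q ∣ ArithmeticFunction.sigma 1 m * P + (ArithmeticFunction.sigma 1 m - 1)) ∨
      (∃ q ∈ QS (M * K.factorial) y ⌊(X : ℝ) ^ c⌋₊,
        q ^ 2 ∣ ArithmeticFunction.sigma 1 m * P +
          (ArithmeticFunction.sigma 1 m - 1)))))).image (fun P => m * P)) with hB
  have hsub : (Icc 2 X).filter (fun n => ¬ (¬ (ff n).Prime ∧ M ∣ ff n + 1 ∧ M ∣ ff (ff n) + 1 ∧
      ((ff (ff n) : ℕ) : ℝ) ≤ (1 + ε) * ff n)) ⊆ A0 ∪ (A1 ∪ (A2 ∪ (A3 ∪ (A4 ∪ B)))) := by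
    intro n hn
    rw [mem_filter, mem_Icc] at hn
    obtain ⟨⟨hn2, hnX⟩, hn3⟩ := hn
    by_contra hcon
    rw [mem_union, mem_union, mem_union, mem_union, mem_union, not_or, not_or, not_or, not_or,
      not_or] at hcon
    obtain ⟨c0, c1, c2, c3, c4, c5⟩ := hcon
    apply hn3
    have hnI : n ∈ Icc 1 X := mem_Icc.2 ⟨by omega, hnX⟩
    refine good (κ := κ) (c := c) (c' := 1 / s) (K := K) (η := η) hη hε hM hX16 (by linarith)
      (by linarith) hη0 hy ?_ hκ1.le hcκ hn2 hnX ?_ ?_ ?_ ?_ ?_ ?_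
    · rw [pow_one] at h8
      linarith
    · by_contra hc'
      push Not at hc'
      exact c0 (mem_Icc.2 ⟨by omega, Nat.le_floor hc'⟩)
    · by_contra hc'
      push Not at hc'
      exact c1 (mem_filter.2 ⟨hnI, hc'⟩)
    · intro hc'
      exact c2 (mem_filter.2 ⟨hnI, hc'⟩)
    · intro hc'
      exact c3 (mem_filter.2 ⟨hnI, hc'⟩)
    · intro hc'
      exact c4 (mem_filter.2 ⟨hnI, hc', Nat.modEq_one⟩)
    · intro m P hnm hm2 hmX hPp hP1 hPX hPκ
      have hmX' : m ≤ X := by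
        have : m ≤ n := by
          rw [hnm]
          exact Nat.le_mul_of_pos_right _ hPp.pos
        omega
      constructor
      · intro hc'
        apply c5
        refine mem_biUnion.2 ⟨m, mem_filter.2 ⟨mem_Icc.2 ⟨hm2, hmX'⟩, hmX⟩,
          mem_image.2 ⟨P, mem_union_left _ ?_, hnm.symm⟩⟩
        exact mem_filter.2 ⟨mem_Icc.2 ⟨hP1, hPX⟩, hPp, hc'⟩
      · intro hc'
        apply c5
        refine mem_biUnion.2 ⟨m, mem_filter.2 ⟨mem_Icc.2 ⟨hm2, hmX'⟩, hmX⟩,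
          mem_image.2 ⟨P, mem_union_right _ ?_, hnm.symm⟩⟩
        exact mem_filter.2 ⟨mem_Icc.2 ⟨hP1, hPX⟩, hPp, hPκ, hc'⟩
  have hcard : (((Icc 2 X).filter (fun n => ¬ (¬ (ff n).Prime ∧ M ∣ ff n + 1 ∧
      M ∣ ff (ff n) + 1 ∧ ((ff (ff n) : ℕ) : ℝ) ≤ (1 + ε) * ff n))).card : ℝ) ≤
      A0.card + (A1.card + (A2.card + (A3.card + (A4.card + B.card)))) := by
    refine le_trans (Nat.cast_le.2 (card_le_card hsub)) ?_
    have e1 := card_union_le A0 (A1 ∪ (A2 ∪ (A3 ∪ (A4 ∪ B))))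
    have e2 := card_union_le A1 (A2 ∪ (A3 ∪ (A4 ∪ B)))
    have e3 := card_union_le A2 (A3 ∪ (A4 ∪ B))
    have e4 := card_union_le A3 (A4 ∪ B)
    have e5 := card_union_le A4 B
    have e6 : (A0 ∪ (A1 ∪ (A2 ∪ (A3 ∪ (A4 ∪ B))))).card ≤
      A0.card + (A1.card + (A2.card + (A3.card + (A4.card + B.card)))) := by omega
    exact_mod_cast e6
  have k0 : (A0.card : ℝ) ≤ δ / 8 * X := by
    rw [hA0, Nat.card_Icc, Nat.add_sub_cancel]
    refine (Nat.floor_le (by positivity)).trans ?_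
    have e1 : (X : ℝ) ^ (1 / 2 : ℝ) * (X : ℝ) ^ (1 / 2 : ℝ) = X := by
      rw [← Real.rpow_add hX0]
      norm_num
    rw [div_le_iff₀ hδ] at h7
    have e2 : 0 < (X : ℝ) ^ (1 / 2 : ℝ) := by positivity
    calc (X : ℝ) ^ (1 / 2 : ℝ) = 8 * (X : ℝ) ^ (1 / 2 : ℝ) / 8 := by ring
      _ ≤ ((X : ℝ) ^ (1 / 2 : ℝ) * δ) * (X : ℝ) ^ (1 / 2 : ℝ) / 8 := by gcongr
      _ = δ / 8 * ((X : ℝ) ^ (1 / 2 : ℝ) * (X : ℝ) ^ (1 / 2 : ℝ)) := by ring
      _ = δ / 8 * X := by rw [e1]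
  have k1 : (A1.card : ℝ) ≤ δ / 8 * X := h1
  have k2 : (A2.card : ℝ) ≤ δ / 8 * X := by
    have e1 := card_sq_le X y (by omega)
    refine e1.trans ?_
    have hy0 : (0 : ℝ) < y := by exact_mod_cast (by omega : 0 < y)
    have e2 : 8 / δ ≤ y := by linarith
    rw [div_le_iff₀ hδ] at e2
    rw [div_le_iff₀ hy0]
    have e3 : (X : ℝ) * 8 ≤ X * (y * δ) := by gcongr
    linarith
  have k3 : (A3.card : ℝ) ≤ δ / 8 * X := by
    have e1 := int_sieve hG' (M * K.factorial) y ⌊(X : ℝ) ^ (1 / (s : ℝ))⌋₊ X (by omega) (by omega)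
      (by
        have e2 : ((⌊(X : ℝ) ^ (1 / (s : ℝ))⌋₊ ^ s : ℕ) : ℝ) ≤ X := by
          push_cast
          calc ((⌊(X : ℝ) ^ (1 / (s : ℝ))⌋₊ : ℕ) : ℝ) ^ s ≤ ((X : ℝ) ^ (1 / (s : ℝ))) ^ s := by
                gcongr
                exact Nat.floor_le (by positivity)
            _ = X := by
                rw [← Real.rpow_natCast, ← Real.rpow_mul hX0.le]
                have : 1 / (s : ℝ) * s = 1 := by field_simp
                rw [this, Real.rpow_one]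
        exact_mod_cast e2)
    refine e1.trans ?_
    calc 3 * (X : ℝ) * Real.exp (-∑ q ∈ QS (M * K.factorial) y ⌊(X : ℝ) ^ (1 / (s : ℝ))⌋₊,
          (1 : ℝ) / q) ≤ 3 * (X : ℝ) * Real.exp (-A) := by gcongr
      _ = (3 * Real.exp (-A)) * X := by ring
      _ ≤ δ / 8 * X := by gcongr
  have k4 : (A4.card : ℝ) ≤ δ / 8 * X := by
    have e1 := hbti 1 0 X le_rfl (by omega) (by omega)
    rw [Nat.totient_one, Nat.cast_one, one_mul] at e1
    refine e1.trans ?_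
    have e2 : 8 * C / δ ≤ Real.log X := by linarith
    rw [div_le_iff₀ hδ] at e2
    rw [div_le_iff₀ hL0]
    have e3 : (X : ℝ) * (8 * C) ≤ X * (Real.log X * δ) := by gcongr
    linarith
  have k5 : (B.card : ℝ) ≤ δ / 8 * X := by
    calc (B.card : ℝ) ≤ ∑ m ∈ (Icc 2 X).filter (fun m : ℕ => (m : ℝ) ≤ (X : ℝ) ^ (1 - κ)),
          (δ / 16 * (X / Real.log X)) * ((1 : ℝ) / m) := by
          rw [hB]
          refine le_trans (Nat.cast_le.2 Finset.card_biUnion_le) ?_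
          rw [Nat.cast_sum]
          refine Finset.sum_le_sum fun m hm => ?_
          rw [mem_filter, mem_Icc] at hm
          have hm0 : (0 : ℝ) < m := by exact_mod_cast (by omega : 0 < m)
          have e1 := h2 m (by omega) hm.2
          have e2 := h3 m hm.1.1 hm.2
          refine le_trans (Nat.cast_le.2 (card_image_le.trans (card_union_le _ _))) ?_
          rw [Nat.cast_add]
          refine (add_le_add e1 e2).trans (le_of_eq ?_)
          field_simp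
          norm_num
      _ ≤ ∑ m ∈ Icc 1 X, (δ / 16 * (X / Real.log X)) * ((1 : ℝ) / m) := by
          apply Finset.sum_le_sum_of_subset_of_nonneg
          · intro m hm
            rw [mem_filter, mem_Icc] at hm
            exact mem_Icc.2 ⟨by omega, hm.1.2⟩
          · intro m _ _
            positivity
      _ = (δ / 16 * (X / Real.log X)) * ∑ m ∈ Icc 1 X, (1 : ℝ) / m := by rw [Finset.mul_sum]
      _ ≤ (δ / 16 * (X / Real.log X)) * (2 * Real.log X) := by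
          gcongr
          exact (sum_inv_le X).trans (by linarith)
      _ = δ / 8 * X := by field_simp; norm_num
  have hfin : δ / 8 * X + (δ / 8 * X + (δ / 8 * X + (δ / 8 * X + (δ / 8 * X + δ / 8 * X)))) ≤
      δ * X := by
    have : 0 < δ * X := by positivity
    linarith
  linarith

end Pool.Agent.SGK
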