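import Pool.Agent.SGK.Sieve
import Pool.Agent.SGJ.Cells

set_option autoImplicit false

/-!
# The bad primes `P` for a given `m`
-/

namespace Pool.Agent.SGK

open Finset Pool.Agent.PnMn Pool.Agent.PnMn.SieveCor Pool.Agent.HP Pool.Agent.SGJ Filter

/-- large powers -/
lemma pow_large (c A : ℝ) (hc : 0 < c) : ∃ X₀ : ℕ, ∀ X : ℕ, X₀ ≤ X → A ≤ (X : ℝ) ^ c := by
  have h : Tendsto (fun X : ℕ => (X : ℝ) ^ c) atTop atTop :=
    (tendsto_rpow_atTop hc).comp tendsto_natCast_atTop_atTop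
  exact Filter.eventually_atTop.1 (h.eventually_ge_atTop A)

lemma log_large (A : ℝ) : ∃ X₀ : ℕ, ∀ X : ℕ, X₀ ≤ X → A ≤ Real.log X := by
  have h : Tendsto (fun X : ℕ => Real.log (X : ℝ)) atTop atTop :=
    Real.tendsto_log_atTop.comp tendsto_natCast_atTop_atTop
  exact Filter.eventually_atTop.1 (h.eventually_ge_atTop A)

lemma loglog_large (A : ℝ) : ∃ X₀ : ℕ, ∀ X : ℕ, X₀ ≤ X → A ≤ Real.log (Real.log X) := by
  have h : Tendsto (fun X : ℕ => Real.log (Real.log (X : ℝ))) atTop atTop :=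
    Real.tendsto_log_atTop.comp (Real.tendsto_log_atTop.comp tendsto_natCast_atTop_atTop)
  exact Filter.eventually_atTop.1 (h.eventually_ge_atTop A)

/-- basic facts on `Z = X / m` -/
lemma basicZ (κ : ℝ) (hκ : 0 < κ) (hκ1 : κ ≤ 1 / 2) : ∃ X₀ : ℕ, ∀ X : ℕ, X₀ ≤ X →
    16 ≤ X ∧ 1 ≤ Real.log (Real.log X) ∧ 4 ≤ Real.log X ∧
    ∀ m : ℕ, 1 ≤ m → (m : ℝ) ≤ (X : ℝ) ^ (1 - κ) →
    m ≤ X ∧ 2 ≤ X / m ∧ (X : ℝ) ^ (κ / 2) ≤ ((X / m : ℕ) : ℝ) ∧
      (((X / m : ℕ) : ℝ)) ≤ X / m ∧ κ / 2 * Real.log X ≤ Real.log ((X / m : ℕ) : ℝ) ∧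
      ⌊Real.log X⌋₊ ^ 2 ≤ X / m := by
  obtain ⟨X₁, h1⟩ := pow_large (κ / 2) 2 (by positivity)
  obtain ⟨X₂, h2⟩ := loglog_large 1
  obtain ⟨X₃, h3⟩ := log_large 4
  obtain ⟨X₄, h4⟩ := log_pow_le 2 (κ / 2) (by positivity)
  refine ⟨X₁ + X₂ + X₃ + X₄ + 16, fun X hX => ?_⟩
  have h1 := h1 X (by omega)
  have h2 := h2 X (by omega)
  have h3 := h3 X (by omega)
  have h4 := h4 X (by omega)
  refine ⟨by omega, h2, h3, fun m hm hmX => ?_⟩
  have hX0 : (0 : ℝ) < X := by exact_mod_cast (by omega : 0 < X)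
  have hX1 : (1 : ℝ) ≤ X := by exact_mod_cast (by omega : 1 ≤ X)
  have hm0 : (0 : ℝ) < m := by exact_mod_cast (by omega : 0 < m)
  have hmX' : m ≤ X := by
    have h5 : (m : ℝ) ≤ X := by
      calc (m : ℝ) ≤ (X : ℝ) ^ (1 - κ) := hmX
        _ ≤ (X : ℝ) ^ (1 : ℝ) := Real.rpow_le_rpow_of_exponent_le hX1 (by linarith)
        _ = X := Real.rpow_one _
    exact_mod_cast h5
  have hXκ : (X : ℝ) ^ κ ≤ X / m := by
    rw [le_div_iff₀ hm0]
    calc (X : ℝ) ^ κ * m ≤ (X : ℝ) ^ κ * (X : ℝ) ^ (1 - κ) := by gcongr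
      _ = X := by
        rw [← Real.rpow_add hX0]
        norm_num
  have hsplit : (X : ℝ) ^ κ = (X : ℝ) ^ (κ / 2) * (X : ℝ) ^ (κ / 2) := by
    rw [← Real.rpow_add hX0]
    congr 1
    ring
  have hlow : (X : ℝ) ^ (κ / 2) ≤ ((X / m : ℕ) : ℝ) := by
    have h5 : X < m * (X / m + 1) := Nat.lt_mul_div_succ X (by omega)
    have h6 : (X : ℝ) < m * (((X / m : ℕ) : ℝ) + 1) := by exact_mod_cast h5
    have h7 : (X : ℝ) / m < ((X / m : ℕ) : ℝ) + 1 := by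
      rw [div_lt_iff₀ hm0]
      linarith
    nlinarith
  refine ⟨hmX', ?_, hlow, Nat.cast_div_le, ?_, ?_⟩
  · have : (2 : ℝ) ≤ ((X / m : ℕ) : ℝ) := h1.trans hlow
    exact_mod_cast this
  · rw [← Real.log_rpow hX0]
    exact Real.log_le_log (by positivity) hlow
  · have h5 : ((⌊Real.log X⌋₊ : ℕ) : ℝ) ≤ Real.log X := Nat.floor_le (by linarith)
    have h6 : (((⌊Real.log X⌋₊ ^ 2 : ℕ)) : ℝ) ≤ ((X / m : ℕ) : ℝ) := by
      push_cast
      calc ((⌊Real.log X⌋₊ : ℕ) : ℝ) ^ 2 ≤ Real.log X ^ 2 := by gcongr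
        _ ≤ _ := h4.trans hlow
    exact_mod_cast h6

lemma cop {m : ℕ} (hm : 1 ≤ m) :
    Nat.Coprime (ArithmeticFunction.sigma 1 m) (ArithmeticFunction.sigma 1 m - 1) := by
  have ha1 := sigma_pos hm
  rw [Nat.coprime_comm]
  exact (Nat.coprime_self_sub_right ha1).2 (Nat.coprime_one_right _) |>.symm

open scoped Classical in
/-- growth: few `P` with a large sum -/
theorem cellK (κ : ℝ) (hκ : 0 < κ) (hκ1 : κ ≤ 1 / 2) (η ρ : ℝ) (hη : 0 < η) (hρ : 0 < ρ) :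
    ∃ K : ℕ, 1 ≤ K ∧ ∃ X₀ : ℕ, ∀ X : ℕ, X₀ ≤ X → ∀ m : ℕ, 1 ≤ m →
    (m : ℝ) ≤ (X : ℝ) ^ (1 - κ) →
    (((Icc 1 (X / m)).filter (fun P => P.Prime ∧ η <
      ∑ p ∈ (Ioc K ⌊Real.log X⌋₊).filter (fun p => p.Prime ∧
        p ∣ ArithmeticFunction.sigma 1 m * P + (ArithmeticFunction.sigma 1 m - 1)),
        (1 : ℝ) / p)).card : ℝ) ≤ ρ * (X / (m * Real.log X)) := by
  obtain ⟨C, hC, hg⟩ := growth_count
  obtain ⟨X₀, h0⟩ := basicZ κ hκ hκ1
  refine ⟨⌈2 * C / (κ * η * ρ)⌉₊ + 1, by omega, X₀, fun X hX m hm hmX => ?_⟩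
  obtain ⟨hX16, hLL, hL4, h1⟩ := h0 X hX
  obtain ⟨hmX', hZ2, hlow, hup, hlog, hy2⟩ := h1 m hm hmX
  set K := ⌈2 * C / (κ * η * ρ)⌉₊ + 1 with hK
  set Z := X / m with hZ
  have hZ0 : (0 : ℝ) < Z := by exact_mod_cast (by omega : 0 < Z)
  have hm0 : (0 : ℝ) < m := by exact_mod_cast (by omega : 0 < m)
  have hX0 : (0 : ℝ) < X := by exact_mod_cast (by omega : 0 < X)
  have hK0 : (0 : ℝ) < K := by exact_mod_cast (by omega : 0 < K)
  have hL0 : 0 < Real.log X := by linarith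
  have h2 := hg K ⌊Real.log X⌋₊ Z (ArithmeticFunction.sigma 1 m)
    (ArithmeticFunction.sigma 1 m - 1) (by omega) hZ2 hy2 (cop hm) η hη
  refine h2.trans ?_
  have hKC : 2 * C / (κ * η * ρ) ≤ K := by
    refine (Nat.le_ceil _).trans ?_
    exact_mod_cast (by omega : ⌈2 * C / (κ * η * ρ)⌉₊ ≤ K)
  calc C / (K * η) * (Z / Real.log Z) ≤ C / (K * η) * ((X / m) / (κ / 2 * Real.log X)) := by
        gcongr
    _ = (2 * C / (κ * η)) / K * (X / (m * Real.log X)) := by field_simp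
    _ ≤ ρ * (X / (m * Real.log X)) := by
        gcongr
        rw [div_le_iff₀ hK0]
        rw [div_le_iff₀ (by positivity)] at hKC
        rw [div_le_iff₀ (by positivity)]
        linarith

open scoped Classical in
/-- few `P` without a prime `q ≡ -1` dividing `f (m P)` exactly once -/
theorem cellM (κ : ℝ) (hκ : 0 < κ) (hκ1 : κ ≤ 1 / 2) (M : ℕ) (hM : 1 ≤ M) (ρ : ℝ) (hρ : 0 < ρ) :
    ∃ c : ℝ, 0 < c ∧ c ≤ κ / 2 ∧ ∃ X₀ : ℕ, ∀ X : ℕ, X₀ ≤ X → ∀ m : ℕ, 2 ≤ m →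
    (m : ℝ) ≤ (X : ℝ) ^ (1 - κ) →
    (((Icc 1 (X / m)).filter (fun P : ℕ => P.Prime ∧ (X : ℝ) ^ κ < P ∧
      ((∀ q ∈ QS M ⌊Real.log X⌋₊ ⌊(X : ℝ) ^ c⌋₊,
        ¬ q ∣ ArithmeticFunction.sigma 1 m * P + (ArithmeticFunction.sigma 1 m - 1)) ∨
      (∃ q ∈ QS M ⌊Real.log X⌋₊ ⌊(X : ℝ) ^ c⌋₊,
        q ^ 2 ∣ ArithmeticFunction.sigma 1 m * P +
          (ArithmeticFunction.sigma 1 m - 1))))).card : ℝ) ≤ ρ * (X / (m * Real.log X)) := by
  obtain ⟨s, hs, hG⟩ := generalSieve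
  have hG' : GS s := hG
  obtain ⟨C, hC, hsq⟩ := sq_count
  have hs0 : (0 : ℝ) < s := by exact_mod_cast hs
  set c : ℝ := κ / (2 * (s + 4)) with hc
  have hc0 : 0 < c := by rw [hc]; positivity
  have hcs : c * s ≤ κ / 2 := by
    rw [hc, div_mul_eq_mul_div, div_le_div_iff₀ (by positivity) (by norm_num)]
    nlinarith
  have hc4 : c * 4 ≤ κ / 2 := by
    rw [hc, div_mul_eq_mul_div, div_le_div_iff₀ (by positivity) (by norm_num)]
    nlinarith
  obtain ⟨A, hA⟩ : ∃ A : ℝ, 12 * Real.exp 4 / c * Real.exp (-A) ≤ ρ / 2 := by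
    refine ⟨Real.log (24 * Real.exp 4 / (c * ρ)), ?_⟩
    rw [Real.exp_neg, Real.exp_log (by positivity)]
    apply le_of_eq
    field_simp
    norm_num
  obtain ⟨X₁, h1⟩ := basicZ κ hκ hκ1
  obtain ⟨X₂, h2⟩ := div M hM c hc0 A
  obtain ⟨X₃, h3⟩ := pow_large (c / 2) 2 (by positivity)
  obtain ⟨X₄, h4⟩ := log_large (4 * C / (κ * ρ) + 1)
  refine ⟨c, hc0, by linarith, X₁ + X₂ + X₃ + X₄, fun X hX m hm hmX => ?_⟩
  obtain ⟨hX16, hLL, hL4, h1⟩ := h1 X (by omega)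
  obtain ⟨hmX', hZ2, hlow, hup, hlog, hy2⟩ := h1 m (by omega) hmX
  have h2 := h2 X (by omega)
  have h3 := h3 X (by omega)
  have h4 := h4 X (by omega)
  set y := ⌊Real.log X⌋₊ with hy
  set z := ⌊(X : ℝ) ^ c⌋₊ with hz
  set Z := X / m with hZ
  set a := ArithmeticFunction.sigma 1 m with ha
  have ha2 : 2 ≤ a := by
    have := SGI.sigma_ge hm
    omega
  have hZ0 : (0 : ℝ) < Z := by exact_mod_cast (by omega : 0 < Z)
  have hm0 : (0 : ℝ) < m := by exact_mod_cast (by omega : 0 < m)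
  have hX0 : (0 : ℝ) < X := by exact_mod_cast (by omega : 0 < X)
  have hX1 : (1 : ℝ) ≤ X := by exact_mod_cast (by omega : 1 ≤ X)
  have hL0 : 0 < Real.log X := by linarith
  have hy4 : 4 ≤ y := Nat.le_floor (by exact_mod_cast hL4)
  have hXc : (X : ℝ) ^ c = (X : ℝ) ^ (c / 2) * (X : ℝ) ^ (c / 2) := by
    rw [← Real.rpow_add hX0]
    congr 1
    ring
  have hzX : (z : ℝ) ≤ (X : ℝ) ^ c := Nat.floor_le (by positivity)
  have hzlow : (X : ℝ) ^ (c / 2) ≤ z := by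
    have e1 : (X : ℝ) ^ c < z + 1 := Nat.lt_floor_add_one _
    nlinarith
  have hz2 : 2 ≤ z := by
    have : (2 : ℝ) ≤ z := h3.trans hzlow
    exact_mod_cast this
  have hz0 : (0 : ℝ) < z := by exact_mod_cast (by omega : 0 < z)
  have hlz : c / 2 * Real.log X ≤ Real.log z := by
    rw [← Real.log_rpow hX0]
    exact Real.log_le_log (by positivity) hzlow
  have hzs : z ^ s ≤ Z := by
    have e1 : ((z ^ s : ℕ) : ℝ) ≤ Z := by
      push_cast
      calc (z : ℝ) ^ s ≤ ((X : ℝ) ^ c) ^ s := by gcongr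
        _ = (X : ℝ) ^ (c * s) := by rw [Real.rpow_mul hX0.le, Real.rpow_natCast]
        _ ≤ (X : ℝ) ^ (κ / 2) := Real.rpow_le_rpow_of_exponent_le hX1 hcs
        _ ≤ Z := hlow
    exact_mod_cast e1
  have hz4 : z ^ 4 ≤ Z := by
    have e1 : ((z ^ 4 : ℕ) : ℝ) ≤ Z := by
      push_cast
      calc (z : ℝ) ^ 4 ≤ ((X : ℝ) ^ c) ^ 4 := by gcongr
        _ = (X : ℝ) ^ (c * 4) := by
            rw [Real.rpow_mul hX0.le]
            norm_cast
        _ ≤ (X : ℝ) ^ (κ / 2) := Real.rpow_le_rpow_of_exponent_le hX1 hc4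
        _ ≤ Z := hlow
    exact_mod_cast e1
  -- the sieve part
  have p1 := prime_sieve hG' M y z Z a (by omega) hz2 ha2 hzs
  have p2 := hsq M y z Z a (a - 1) (by omega) hZ2 hz4 (cop (by omega))
  have haX := sigma_le_sq hX16 (by omega : 1 ≤ m) hmX'
  have hbs : ∑ q ∈ (QS M y z).filter (fun q => q ∣ a * (a - 1)), (1 : ℝ) / q ≤ 4 := by
    have e1 := big_sum (n := a * (a - 1)) hX16 hLL (Nat.mul_pos (by omega) (by omega))
      (by
        calc a * (a - 1) ≤ X ^ 2 * X ^ 2 := Nat.mul_le_mul haX ((Nat.sub_le _ _).trans haX)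
          _ = X ^ 4 := by ring)
      ((QS M y z).filter (fun q => q ∣ a * (a - 1)))
      (by
        intro q hq
        rw [mem_filter, mem_QS] at hq
        refine ⟨hq.1.2.1, hq.2, ?_⟩
        have e2 : Real.log X < y + 1 := Nat.lt_floor_add_one _
        have e3 : ((y + 1 : ℕ) : ℝ) ≤ q := by exact_mod_cast hq.1.1.1
        push_cast at e3
        linarith)
    refine e1.trans ?_
    rw [div_le_iff₀ (by linarith)]
    linarith
  have q1 : 6 * Z / Real.log z * Real.exp (∑ q ∈ (QS M y z).filter (fun q => q ∣ a * (a - 1)),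
        (1 : ℝ) / q) * Real.exp (-∑ q ∈ QS M y z, (1 : ℝ) / q) ≤
        ρ / 2 * (X / (m * Real.log X)) := by
    have hlz0 : 0 < c / 2 * Real.log X := by positivity
    calc _ ≤ 6 * (X / m) / (c / 2 * Real.log X) * Real.exp 4 * Real.exp (-A) := by
          gcongr
      _ = (12 * Real.exp 4 / c * Real.exp (-A)) * (X / (m * Real.log X)) := by
          field_simp
          norm_num
      _ ≤ ρ / 2 * (X / (m * Real.log X)) := by gcongr
  have q2 : C / y * (Z / Real.log Z) ≤ ρ / 2 * (X / (m * Real.log X)) := by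
    have hy0 : (0 : ℝ) < y := by exact_mod_cast (by omega : 0 < y)
    have hyA : 4 * C / (κ * ρ) ≤ y := by
      have e2 : Real.log X < y + 1 := Nat.lt_floor_add_one _
      linarith
    calc C / y * (Z / Real.log Z) ≤ C / y * ((X / m) / (κ / 2 * Real.log X)) := by gcongr
      _ = (2 * C / κ) / y * (X / (m * Real.log X)) := by field_simp
      _ ≤ ρ / 2 * (X / (m * Real.log X)) := by
          apply mul_le_mul_of_nonneg_right _ (by positivity)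
          rw [div_le_iff₀ hy0]
          rw [div_le_iff₀ (by positivity)] at hyA
          rw [div_le_iff₀ hκ]
          linarith
  have hsub : (Icc 1 Z).filter (fun P : ℕ => P.Prime ∧ (X : ℝ) ^ κ < P ∧
      ((∀ q ∈ QS M y z, ¬ q ∣ a * P + (a - 1)) ∨
      (∃ q ∈ QS M y z, q ^ 2 ∣ a * P + (a - 1)))) ⊆
      (Icc 1 Z).filter (fun P => P.Prime ∧ z < P ∧ ∀ q ∈ QS M y z, ¬ q ∣ a * P + (a - 1)) ∪
      (Icc 1 Z).filter (fun P => P.Prime ∧ ∃ q ∈ QS M y z, q ^ 2 ∣ a * P + (a - 1)) := by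
    intro P hP
    rw [mem_filter] at hP
    obtain ⟨h5, h6, h7, h8⟩ := hP
    rw [mem_union, mem_filter, mem_filter]
    rcases h8 with h8 | h8
    · left
      refine ⟨h5, h6, ?_, h8⟩
      have e1 : (z : ℝ) < P := by
        calc (z : ℝ) ≤ (X : ℝ) ^ c := hzX
          _ ≤ (X : ℝ) ^ κ := Real.rpow_le_rpow_of_exponent_le hX1 (by linarith)
          _ < P := h7
      exact_mod_cast e1
    · exact Or.inr ⟨h5, h6, h8⟩
  have hcard := (card_le_card hsub).trans (card_union_le _ _)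
  have hcard' : (((Icc 1 Z).filter (fun P : ℕ => P.Prime ∧ (X : ℝ) ^ κ < P ∧
      ((∀ q ∈ QS M y z, ¬ q ∣ a * P + (a - 1)) ∨
      (∃ q ∈ QS M y z, q ^ 2 ∣ a * P + (a - 1))))).card : ℝ) ≤
      (((Icc 1 Z).filter (fun P => P.Prime ∧ z < P ∧
        ∀ q ∈ QS M y z, ¬ q ∣ a * P + (a - 1))).card : ℝ) +
      (((Icc 1 Z).filter (fun P => P.Prime ∧
        ∃ q ∈ QS M y z, q ^ 2 ∣ a * P + (a - 1))).card : ℝ) := by
    rw [← Nat.cast_add]
    exact Nat.cast_le.2 hcard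
  linarith

end Pool.Agent.SGK
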