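import Pool.Agent.PNTAP.Main
import Pool.Agent.PnMn.SumInv

set_option autoImplicit false

/-!
# The sum of `1 / q` over the primes `q ≡ -1 mod M` between `log X` and `X ^ c`
-/

namespace Pool.Agent.SGK

open Finset Filter Topology

/-- primes `q` in `(y, x]` with `M ∣ q + 1` -/
noncomputable def QS (M y x : ℕ) : Finset ℕ := (Ioc y x).filter (fun q => q.Prime ∧ M ∣ q + 1)

lemma mem_QS {M y x q : ℕ} : q ∈ QS M y x ↔ (y < q ∧ q ≤ x) ∧ q.Prime ∧ M ∣ q + 1 := by
  rw [QS, mem_filter, mem_Ioc]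

lemma cast_eq_neg_one {M q : ℕ} : ((q : ZMod M) = -1) ↔ M ∣ q + 1 := by
  rw [← ZMod.natCast_eq_zero_iff]
  push_cast
  constructor
  · intro h
    rw [h]
    ring
  · intro h
    exact eq_neg_of_add_eq_zero_left h

/-- dyadic blocks -/
lemma block (M : ℕ) (hM : 1 ≤ M) : ∃ c : ℝ, 0 < c ∧ ∃ x₀ : ℕ, 1 ≤ x₀ ∧ ∀ x : ℕ, x₀ ≤ x →
    c / Real.log (2 * x : ℕ) ≤ ∑ q ∈ QS M x (2 * x), (1 : ℝ) / q := by
  have : NeZero M := ⟨by omega⟩
  have hb : IsUnit (-1 : ZMod M) := isUnit_one.neg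
  have h := PNTAP.tendsto_theta_class_div hb
  have hφ : (0 : ℝ) < M.totient := by exact_mod_cast Nat.totient_pos.2 (by omega)
  have hφ' : 0 < ((M.totient : ℝ)⁻¹) := by positivity
  obtain ⟨x₁, hx₁⟩ := (Metric.tendsto_atTop.1 h) ((M.totient : ℝ)⁻¹ / 8) (by positivity)
  refine ⟨(M.totient : ℝ)⁻¹ / 4, by positivity, ⌈x₁⌉₊ + 2, by omega, fun x hx => ?_⟩
  have hx0 : (0 : ℝ) < x := by exact_mod_cast (by omega : 0 < x)
  have hx1 : x₁ ≤ (x : ℝ) := (Nat.le_ceil _).trans (by exact_mod_cast (by omega : ⌈x₁⌉₊ ≤ x))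
  have h1 := hx₁ x hx1
  have h2 := hx₁ ((2 * x : ℕ) : ℝ) (by push_cast; linarith)
  rw [Real.dist_eq, abs_lt] at h1 h2
  have h3 : PNTAP.thetaC (-1 : ZMod M) x ≤ (M.totient : ℝ)⁻¹ * (9 / 8) * x := by
    have h4 := h1.2
    have h5 : PNTAP.thetaC (-1 : ZMod M) x / x ≤ (M.totient : ℝ)⁻¹ * (9 / 8) := by linarith
    rwa [div_le_iff₀ hx0] at h5
  have h6 : (M.totient : ℝ)⁻¹ * (7 / 8) * (2 * x) ≤ PNTAP.thetaC (-1 : ZMod M) ((2 * x : ℕ) : ℝ) := by
    have h4 := h2.1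
    have h5 : (M.totient : ℝ)⁻¹ * (7 / 8) ≤
        PNTAP.thetaC (-1 : ZMod M) ((2 * x : ℕ) : ℝ) / ((2 * x : ℕ) : ℝ) := by linarith
    rw [le_div_iff₀ (by push_cast; positivity)] at h5
    push_cast at h5
    push_cast
    exact h5
  have h7 : PNTAP.thetaC (-1 : ZMod M) ((2 * x : ℕ) : ℝ) - PNTAP.thetaC (-1 : ZMod M) x =
      ∑ q ∈ QS M x (2 * x), Real.log q := by
    unfold PNTAP.thetaC PNTAP.primesC
    rw [Nat.floor_natCast, Nat.floor_natCast]
    have e1 : (Ioc 0 (2 * x)).filter (fun p : ℕ => p.Prime ∧ (p : ZMod M) = -1) =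
        (Ioc 0 x).filter (fun p : ℕ => p.Prime ∧ (p : ZMod M) = -1) ∪ QS M x (2 * x) := by
      ext p
      rw [mem_union, mem_QS, mem_filter, mem_filter, mem_Ioc, mem_Ioc, cast_eq_neg_one]
      constructor
      · rintro ⟨⟨h1, h2⟩, h3⟩
        rcases Nat.lt_or_ge x p with h4 | h4
        · exact Or.inr ⟨⟨h4, h2⟩, h3⟩
        · exact Or.inl ⟨⟨h1, h4⟩, h3⟩
      · rintro (⟨⟨h1, h2⟩, h3⟩ | ⟨⟨h1, h2⟩, h3⟩)
        · exact ⟨⟨h1, by omega⟩, h3⟩
        · exact ⟨⟨by omega, h2⟩, h3⟩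
    rw [e1, sum_union]
    · ring
    · rw [Finset.disjoint_left]
      intro p hp hp'
      rw [mem_filter, mem_Ioc] at hp
      rw [mem_QS] at hp'
      omega
  have hlog : 0 < Real.log (2 * x : ℕ) := Real.log_pos (by exact_mod_cast (by omega : 1 < 2 * x))
  have h8 : ∑ q ∈ QS M x (2 * x), Real.log q ≤
      ∑ q ∈ QS M x (2 * x), (Real.log (2 * x : ℕ) * (2 * x)) * ((1 : ℝ) / q) := by
    refine Finset.sum_le_sum fun q hq => ?_
    rw [mem_QS] at hq
    have hq0 : (0 : ℝ) < q := by exact_mod_cast (by omega : 0 < q)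
    have e1 : Real.log q ≤ Real.log (2 * x : ℕ) :=
      Real.log_le_log hq0 (by exact_mod_cast hq.1.2)
    have e2 : (1 : ℝ) ≤ 2 * x * (1 / q) := by
      rw [mul_one_div, le_div_iff₀ hq0, one_mul]
      exact_mod_cast hq.1.2
    calc Real.log q ≤ Real.log (2 * x : ℕ) * 1 := by rw [mul_one]; exact e1
      _ ≤ Real.log (2 * x : ℕ) * (2 * x * (1 / q)) := by gcongr
      _ = _ := by ring
  rw [← Finset.mul_sum] at h8
  rw [div_le_iff₀ hlog]
  have h9 : (M.totient : ℝ)⁻¹ * (1 / 2) * x ≤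
      (Real.log (2 * x : ℕ) * (2 * x)) * ∑ q ∈ QS M x (2 * x), (1 : ℝ) / q := by
    have : (M.totient : ℝ)⁻¹ * (1 / 2) * x ≤
      (M.totient : ℝ)⁻¹ * (7 / 8) * (2 * x) - (M.totient : ℝ)⁻¹ * (9 / 8) * x := by
      have e1 : (M.totient : ℝ)⁻¹ * (7 / 8) * (2 * x) - (M.totient : ℝ)⁻¹ * (9 / 8) * x -
        (M.totient : ℝ)⁻¹ * (1 / 2) * x = (M.totient : ℝ)⁻¹ * x * (1 / 8) := by ring
      have e2 : 0 ≤ (M.totient : ℝ)⁻¹ * x * (1 / 8) := by positivity
      linarith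
    linarith
  have h10 : ((M.totient : ℝ)⁻¹ / 4) * (2 * x) ≤
      ((∑ q ∈ QS M x (2 * x), (1 : ℝ) / q) * Real.log (2 * x : ℕ)) * (2 * x) := by linarith
  exact le_of_mul_le_mul_right h10 (by positivity)

/-- lower bound for the sum up to a power of two -/
lemma dyadic (M : ℕ) (hM : 1 ≤ M) : ∃ c C : ℝ, 0 < c ∧ 0 < C ∧ ∀ J : ℕ,
    c * Real.log (J + 1) - C ≤ ∑ q ∈ QS M 1 (2 ^ J), (1 : ℝ) / q := by
  obtain ⟨c, hc, x₀, hx₀, h⟩ := block M hM
  have hl2 : 0 < Real.log 2 := Real.log_pos (by norm_num)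
  have h1 : ∀ J : ℕ, ∑ j ∈ Ico x₀ J, c / Real.log 2 * (1 / ((j : ℝ) + 1)) ≤
      ∑ q ∈ QS M 1 (2 ^ J), (1 : ℝ) / q := by
    intro J
    induction J with
    | zero =>
      rw [Ico_eq_empty (by omega), sum_empty]
      exact Finset.sum_nonneg fun q _ => by positivity
    | succ J ih =>
      by_cases hJ : x₀ ≤ J
      · rw [sum_Ico_succ_top hJ]
        have e1 : QS M 1 (2 ^ (J + 1)) = QS M 1 (2 ^ J) ∪ QS M (2 ^ J) (2 * 2 ^ J) := by
          ext p
          have h2 : 1 ≤ 2 ^ J := Nat.one_le_two_pow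
          rw [mem_union, mem_QS, mem_QS, mem_QS, pow_succ, mul_comm (2 ^ J) 2]
          constructor
          · rintro ⟨⟨h1, h2⟩, h3⟩
            rcases Nat.lt_or_ge (2 ^ J) p with h4 | h4
            · exact Or.inr ⟨⟨h4, h2⟩, h3⟩
            · exact Or.inl ⟨⟨h1, h4⟩, h3⟩
          · rintro (⟨⟨h1, h2⟩, h3⟩ | ⟨⟨h1, h2⟩, h3⟩)
            · exact ⟨⟨h1, by omega⟩, h3⟩
            · exact ⟨⟨by omega, h2⟩, h3⟩
        rw [e1, sum_union]
        · refine add_le_add ih ?_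
          have h2 := h (2 ^ J) (hJ.trans Nat.lt_two_pow_self.le)
          refine le_trans (le_of_eq ?_) h2
          have e2 : Real.log ((2 * 2 ^ J : ℕ) : ℝ) = (J + 1) * Real.log 2 := by
            rw [show 2 * 2 ^ J = 2 ^ (J + 1) by rw [pow_succ]; ring]
            push_cast
            rw [Real.log_pow]
            push_cast
            ring
          rw [e2]
          field_simp
        · rw [Finset.disjoint_left]
          intro p hp hp'
          rw [mem_QS] at hp hp'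
          omega
      · rw [Ico_eq_empty (by omega), sum_empty]
        exact Finset.sum_nonneg fun q _ => by positivity
  refine ⟨c / Real.log 2, c / Real.log 2 * (1 + Real.log x₀), by positivity, ?_, fun J => ?_⟩
  · have : 0 ≤ Real.log x₀ := Real.log_nonneg (by exact_mod_cast hx₀)
    positivity
  refine le_trans ?_ (h1 J)
  rw [← Finset.mul_sum, ← mul_sub]
  apply mul_le_mul_of_nonneg_left _ (by positivity)
  have e1 : ∀ K : ℕ, ∑ j ∈ range K, (1 : ℝ) / ((j : ℝ) + 1) = (harmonic K : ℝ) := by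
    intro K
    rw [harmonic]
    push_cast
    exact Finset.sum_congr rfl fun j _ => one_div _
  by_cases hJ : x₀ ≤ J
  · rw [Finset.sum_Ico_eq_sub _ hJ, e1, e1]
    have h2 := log_add_one_le_harmonic J
    have h3 := harmonic_le_one_add_log x₀
    push_cast at h2
    linarith
  · rw [Ico_eq_empty (by omega), sum_empty]
    have : Real.log ((J : ℝ) + 1) ≤ Real.log x₀ :=
      Real.log_le_log (by positivity) (by exact_mod_cast (by omega : J + 1 ≤ x₀))
    linarith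

/-- the sum is large -/
theorem div (M : ℕ) (hM : 1 ≤ M) (c : ℝ) (hc : 0 < c) (A : ℝ) : ∃ X₀ : ℕ, ∀ X : ℕ, X₀ ≤ X →
    A ≤ ∑ q ∈ QS M ⌊Real.log X⌋₊ ⌊(X : ℝ) ^ c⌋₊, (1 : ℝ) / q := by
  obtain ⟨b, B, hb, hB, h⟩ := dyadic M hM
  obtain ⟨C, hC⟩ := PnMn.sumInvPrimes
  have hl2 : 0 < Real.log 2 := Real.log_pos (by norm_num)
  -- the function
  have ht : Tendsto (fun X : ℕ => Real.log (Real.log (X : ℝ))) atTop atTop :=
    Real.tendsto_log_atTop.comp (Real.tendsto_log_atTop.comp tendsto_natCast_atTop_atTop)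
  have hlo : ∀ᶠ t : ℝ in atTop, Real.log t ≤ b / 2 * t := by
    have h1 := (Real.isLittleO_log_id_atTop).bound (show 0 < b / 2 by positivity)
    filter_upwards [h1, eventually_gt_atTop 1] with t h2 h3
    simp only [id] at h2
    rw [Real.norm_of_nonneg (Real.log_nonneg h3.le), Real.norm_of_nonneg (by linarith)] at h2
    exact h2
  have hbig : ∀ᶠ t : ℝ in atTop, (A + C + B - b * Real.log (c / Real.log 2)) / (b / 2) ≤ t :=
    eventually_ge_atTop _
  obtain ⟨X₁, hX₁⟩ := Filter.eventually_atTop.1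
    (ht.eventually (hlo.and (hbig.and (eventually_ge_atTop 2))))
  refine ⟨X₁ + 16, fun X hX => ?_⟩
  obtain ⟨h1, h2, h3⟩ := hX₁ X (by omega)
  set t := Real.log (Real.log (X : ℝ)) with htdef
  have hX0 : (0 : ℝ) < X := by exact_mod_cast (by omega : 0 < X)
  have hX1 : (1 : ℝ) < X := by exact_mod_cast (by omega : 1 < X)
  have hL0 : 0 < Real.log X := Real.log_pos hX1
  have hLexp : Real.log X = Real.exp t := by rw [htdef, Real.exp_log hL0]
  have hL4 : 4 ≤ Real.log X := by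
    rw [hLexp]
    have e1 := Real.add_one_le_exp (t / 2)
    have e2 : Real.exp t = Real.exp (t / 2) * Real.exp (t / 2) := by
      rw [← Real.exp_add]
      congr 1
      ring
    rw [e2]
    have e3 : 2 ≤ Real.exp (t / 2) := by linarith
    nlinarith
  set y := ⌊Real.log (X : ℝ)⌋₊ with hy
  have hy4 : 4 ≤ y := Nat.le_floor (by exact_mod_cast hL4)
  have hyL : (y : ℝ) ≤ Real.log X := Nat.floor_le hL0.le
  set J := ⌊c * Real.log X / Real.log 2⌋₊ with hJ
  have hJX : 2 ^ J ≤ ⌊(X : ℝ) ^ c⌋₊ := by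
    apply Nat.le_floor
    push_cast
    have e1 : (J : ℝ) ≤ c * Real.log X / Real.log 2 := Nat.floor_le (by positivity)
    rw [le_div_iff₀ hl2] at e1
    rw [← Real.rpow_natCast, ← Real.exp_log (show (0 : ℝ) < (2 : ℝ) ^ (J : ℝ) by positivity),
      ← Real.exp_log (show (0 : ℝ) < (X : ℝ) ^ c by positivity), Real.log_rpow (by norm_num),
      Real.log_rpow hX0]
    exact Real.exp_le_exp.2 e1
  have h4 := h J
  have h5 : b * (Real.log (c / Real.log 2) + t) ≤ b * Real.log (J + 1) := by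
    apply mul_le_mul_of_nonneg_left _ hb.le
    rw [htdef, ← Real.log_mul (by positivity) hL0.ne']
    apply Real.log_le_log (by positivity)
    have e1 : c * Real.log X / Real.log 2 < J + 1 := Nat.lt_floor_add_one _
    calc c / Real.log 2 * Real.log X = c * Real.log X / Real.log 2 := by ring
      _ ≤ _ := e1.le
  have h6 := hC y (by omega)
  have h7 : Real.log (Real.log y) ≤ Real.log t := by
    apply Real.log_le_log
    · apply Real.log_pos
      exact_mod_cast (by omega : 1 < y)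
    · rw [htdef]
      apply Real.log_le_log _ hyL
      exact_mod_cast (by omega : 0 < y)
  have h8 : ∑ q ∈ QS M 1 (2 ^ J), (1 : ℝ) / q ≤
      (∑ p ∈ (Icc 1 y).filter Nat.Prime, (1 : ℝ) / p) +
      ∑ q ∈ QS M y ⌊(X : ℝ) ^ c⌋₊, (1 : ℝ) / q := by
    rw [← sum_union]
    · apply Finset.sum_le_sum_of_subset_of_nonneg
      · intro q hq
        rw [mem_QS] at hq
        rw [mem_union, mem_filter, mem_Icc, mem_QS]
        rcases Nat.lt_or_ge y q with h9 | h9
        · exact Or.inr ⟨⟨h9, hq.1.2.trans hJX⟩, hq.2⟩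
        · exact Or.inl ⟨⟨hq.2.1.one_le, h9⟩, hq.2.1⟩
      · intro q _ _
        positivity
    · rw [Finset.disjoint_left]
      intro p hp hp'
      rw [mem_filter, mem_Icc] at hp
      rw [mem_QS] at hp'
      omega
  rw [div_le_iff₀ (by positivity)] at h2
  have h10 : b * (Real.log (c / Real.log 2) + t) = b * Real.log (c / Real.log 2) + b * t := by
    ring
  linarith

end Pool.Agent.SGK
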