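import Pool.Agent.SGK.Div
import Pool.Agent.PnMn.GeneralSieve
import Pool.Agent.PnMn.SieveCor
import Pool.Agent.SGJ.Smooth
import Pool.Agent.HP.BTI

set_option autoImplicit false

/-!
# Sieve bounds with the primes `q ≡ -1 mod M`
-/

namespace Pool.Agent.SGK

open Finset Pool.Agent.PnMn Pool.Agent.PnMn.SieveCor Pool.Agent.HP Pool.Agent.SGJ

lemma prod_le_exp (S : Finset ℕ) (hS : ∀ p ∈ S, 2 ≤ p) :
    ∏ p ∈ S, (1 - 1 / (p : ℝ)) ≤ Real.exp (-∑ p ∈ S, (1 : ℝ) / p) := by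
  rw [← Finset.sum_neg_distrib, Real.exp_sum]
  apply Finset.prod_le_prod
  · intro p hp
    exact (one_sub_pos (hS p hp)).le
  · intro p _
    exact Real.one_sub_le_exp_neg _

/-- integers without prime factor in `QS M y z` -/
lemma int_sieve {s : ℕ} (hG : GS s) (M y z X : ℕ) (hy : 2 ≤ y) (hX : 1 ≤ X) (hz : z ^ s ≤ X) :
    (((Icc 1 X).filter (fun n => ∀ q ∈ QS M y z, ¬ q ∣ n)).card : ℝ) ≤
      3 * X * Real.exp (-∑ q ∈ QS M y z, (1 : ℝ) / q) := by
  have h1 := GS_use hG z (QS M y z) (fun _ => {0}) 0 X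
    (by
      intro p hp
      rw [mem_QS] at hp
      exact ⟨hp.2.1, by omega, hp.1.2⟩)
    (fun p _ => by simp) hX hz
    ((Icc 1 X).filter (fun n => ∀ q ∈ QS M y z, ¬ q ∣ n))
    (by
      intro n hn
      rw [mem_filter, mem_Icc] at hn
      rw [mem_Ioc]
      omega)
    (by
      intro n hn p hp hmem
      rw [mem_filter] at hn
      rw [mem_singleton] at hmem
      exact hn.2 p hp ((ZMod.natCast_eq_zero_iff n p).1 hmem))
  refine h1.trans ?_
  have h2 := prod_le_exp (QS M y z) (fun p hp => ((mem_QS.1 hp).2.1).two_le)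
  have h3 : ∏ p ∈ QS M y z, (1 - ((({0} : Finset (ZMod p)).card : ℕ) : ℝ) / p) =
      ∏ p ∈ QS M y z, (1 - 1 / (p : ℝ)) := by
    refine Finset.prod_congr rfl fun p _ => ?_
    simp
  rw [h3]
  gcongr

open scoped Classical in
/-- residue classes -/
noncomputable def BQ (Q : Finset ℕ) (a : ℕ) (p : ℕ) : Finset (ZMod p) :=
  {0} ∪ (if p ∈ Q ∧ ¬ p ∣ a then {-(((a : ZMod p) - 1) * (a : ZMod p)⁻¹)} else ∅)

lemma BQ_card_le (Q : Finset ℕ) (a p : ℕ) : 1 ≤ (BQ Q a p).card ∧ (BQ Q a p).card ≤ 2 := by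
  unfold BQ
  constructor
  · apply Finset.card_pos.2
    exact ⟨0, by simp⟩
  · refine (Finset.card_union_le _ _).trans ?_
    split_ifs <;> simp

lemma BQ_card_ge (Q : Finset ℕ) (a p : ℕ) (ha : 1 ≤ a) (hp : p.Prime) (hQ : p ∈ Q)
    (h : ¬ p ∣ a * (a - 1)) : (BQ Q a p).card = 2 := by
  have := Fact.mk hp
  have h1 : ¬ p ∣ a := fun h1 => h (h1.mul_right _)
  have h2 : ¬ p ∣ a - 1 := fun h1 => h (h1.mul_left _)
  have ha0 : (a : ZMod p) ≠ 0 := fun h0 => h1 ((ZMod.natCast_eq_zero_iff a p).1 h0)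
  have ha1 : (a : ZMod p) - 1 ≠ 0 := by
    intro h0
    apply h2
    rw [← ZMod.natCast_eq_zero_iff, Nat.cast_sub ha, Nat.cast_one]
    exact h0
  unfold BQ
  rw [if_pos ⟨hQ, h1⟩, Finset.card_union_of_disjoint]
  · simp
  · rw [Finset.disjoint_singleton]
    intro h0
    exact mul_ne_zero ha1 (inv_ne_zero ha0) (neg_eq_zero.1 h0.symm)

/-- primes `P` for which `a P + (a - 1)` has no prime factor in `QS M y z` -/
lemma prime_sieve {s : ℕ} (hG : GS s) (M y z Z a : ℕ) (hy : 2 ≤ y) (hz : 2 ≤ z) (ha : 2 ≤ a)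
    (hZ : z ^ s ≤ Z) :
    (((Icc 1 Z).filter (fun P => P.Prime ∧ z < P ∧
      ∀ q ∈ QS M y z, ¬ q ∣ a * P + (a - 1))).card : ℝ) ≤
      6 * Z / Real.log z * Real.exp (∑ q ∈ (QS M y z).filter (fun q => q ∣ a * (a - 1)),
        (1 : ℝ) / q) * Real.exp (-∑ q ∈ QS M y z, (1 : ℝ) / q) := by
  have hzlog : 0 < Real.log z := Real.log_pos (by exact_mod_cast hz)
  have hZ1 : 1 ≤ Z := le_trans (Nat.one_le_pow _ _ (by omega)) hZ
  have h1 := GS_use hG z (pr z) (BQ (QS M y z) a) 0 Z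
    (by
      intro p hp
      have := mem_pr.1 hp
      exact ⟨this.2, this.1.1, this.1.2⟩)
    (fun p _ => BQ_card_le _ a p) hZ1 hZ
    ((Icc 1 Z).filter (fun P => P.Prime ∧ z < P ∧ ∀ q ∈ QS M y z, ¬ q ∣ a * P + (a - 1)))
    (by
      intro q hq
      rw [mem_filter, mem_Icc] at hq
      rw [mem_Ioc]
      omega)
    (by
      intro P hP p hp hmem
      rw [mem_filter, mem_Icc] at hP
      obtain ⟨_, hPp, hzP, hR⟩ := hP
      obtain ⟨⟨hp3, hple⟩, hpp⟩ := mem_pr.1 hp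
      unfold BQ at hmem
      rcases Finset.mem_union.1 hmem with h | h
      · rw [Finset.mem_singleton] at h
        have hd : p ∣ P := (ZMod.natCast_eq_zero_iff P p).1 h
        have he := (Nat.prime_dvd_prime_iff_eq hpp hPp).1 hd
        omega
      · by_cases hpa : p ∈ QS M y z ∧ ¬ p ∣ a
        · rw [if_pos hpa, Finset.mem_singleton] at h
          have := Fact.mk hpp
          have ha0 : (a : ZMod p) ≠ 0 := fun h0 => hpa.2 ((ZMod.natCast_eq_zero_iff a p).1 h0)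
          apply hR p hpa.1
          rw [← ZMod.natCast_eq_zero_iff]
          push_cast [Nat.cast_sub (show 1 ≤ a by omega)]
          rw [h]
          field_simp
          ring
        · rw [if_neg hpa] at h
          simp at h)
  refine h1.trans ?_
  have hV := V_le z hz
  have hV0 : 0 ≤ ∏ p ∈ pr z, (1 - 1 / (p : ℝ)) :=
    Finset.prod_nonneg (fun p hp => (one_sub_pos (mem_pr.1 hp).2.two_le).le)
  set Q' := (QS M y z).filter (fun q => ¬ q ∣ a * (a - 1)) with hQ'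
  have hQ'0 : 0 ≤ ∏ p ∈ Q', (1 - 1 / (p : ℝ)) :=
    Finset.prod_nonneg (fun p hp => (one_sub_pos (mem_QS.1 (mem_filter.1 hp).1).2.1.two_le).le)
  have hQsub : Q' ⊆ pr z := by
    intro q hq
    have := mem_QS.1 (mem_filter.1 hq).1
    rw [mem_pr]
    exact ⟨⟨by omega, this.1.2⟩, this.2.1⟩
  have h2 : ∏ p ∈ pr z, (1 - ((BQ (QS M y z) a p).card : ℝ) / p) ≤
      (∏ p ∈ pr z, (1 - 1 / (p : ℝ))) * ∏ p ∈ Q', (1 - 1 / (p : ℝ)) := by
    have e1 : ∏ p ∈ Q', (1 - 1 / (p : ℝ)) =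
        ∏ p ∈ pr z, (if p ∈ Q' then (1 - 1 / (p : ℝ)) else 1) := by
      rw [← Finset.prod_filter, Finset.filter_mem_eq_inter, Finset.inter_eq_right.2 hQsub]
    rw [e1, ← Finset.prod_mul_distrib]
    apply Finset.prod_le_prod
    · intro p hp
      have h3 : (3 : ℝ) ≤ p := by exact_mod_cast (mem_pr.1 hp).1.1
      have h4 : ((BQ (QS M y z) a p).card : ℝ) ≤ 2 := by exact_mod_cast (BQ_card_le _ a p).2
      have : ((BQ (QS M y z) a p).card : ℝ) / p ≤ 1 := by
        rw [div_le_one (by linarith)]; linarith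
      linarith
    · intro p hp
      have hpp := (mem_pr.1 hp).2
      have h3 : (3 : ℝ) ≤ p := by exact_mod_cast (mem_pr.1 hp).1.1
      by_cases h : p ∈ Q'
      · rw [if_pos h, BQ_card_ge _ a p (by omega) hpp (mem_filter.1 h).1 (mem_filter.1 h).2]
        have : (1 - 1 / (p : ℝ)) * (1 - 1 / (p : ℝ)) = 1 - 2 / p + (1 / p) ^ 2 := by ring
        rw [this]
        have : (0 : ℝ) ≤ (1 / (p : ℝ)) ^ 2 := by positivity
        push_cast
        linarith
      · rw [if_neg h, mul_one]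
        have h4 : (1 : ℝ) ≤ ((BQ (QS M y z) a p).card : ℝ) := by
          exact_mod_cast (BQ_card_le _ a p).1
        have : 1 / (p : ℝ) ≤ ((BQ (QS M y z) a p).card : ℝ) / p := by gcongr
        linarith
  have h5 : ∏ p ∈ Q', (1 - 1 / (p : ℝ)) ≤
      Real.exp (∑ q ∈ (QS M y z).filter (fun q => q ∣ a * (a - 1)), (1 : ℝ) / q) *
        Real.exp (-∑ q ∈ QS M y z, (1 : ℝ) / q) := by
    refine (prod_le_exp Q' (fun p hp => ((mem_QS.1 (mem_filter.1 hp).1).2.1).two_le)).trans ?_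
    rw [← Real.exp_add]
    apply Real.exp_le_exp.2
    have e1 := Finset.sum_filter_add_sum_filter_not (QS M y z) (fun q => q ∣ a * (a - 1))
      (fun q => (1 : ℝ) / q)
    rw [hQ']
    linarith
  calc 3 * (Z : ℝ) * ∏ p ∈ pr z, (1 - ((BQ (QS M y z) a p).card : ℝ) / p)
      ≤ 3 * (Z : ℝ) * ((2 / Real.log z) * (Real.exp (∑ q ∈ (QS M y z).filter
        (fun q => q ∣ a * (a - 1)), (1 : ℝ) / q) *
        Real.exp (-∑ q ∈ QS M y z, (1 : ℝ) / q))) := by
        gcongr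
        refine h2.trans ?_
        exact mul_le_mul hV h5 hQ'0 (by positivity)
    _ = _ := by ring

/-- distinct primes larger than `log X` dividing an integer `n ≤ X ^ 4` -/
lemma big_sum {n X : ℕ} (hX : 16 ≤ X) (hLL : 1 ≤ Real.log (Real.log X)) (hn : 1 ≤ n)
    (hnX : n ≤ X ^ 4) (S : Finset ℕ) (hS : ∀ q ∈ S, q.Prime ∧ q ∣ n ∧ Real.log X < q) :
    ∑ q ∈ S, (1 : ℝ) / q ≤ 4 / Real.log (Real.log X) := by
  have hX0 : (0 : ℝ) < X := by exact_mod_cast (by omega : 0 < X)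
  have hX1 : (1 : ℝ) < X := by exact_mod_cast (by omega : 1 < X)
  have hL0 : 0 < Real.log X := Real.log_pos hX1
  have hLL0 : 0 < Real.log (Real.log X) := by linarith
  have h1 : ∏ q ∈ S, q ≤ n := by
    have h2 : S ⊆ n.primeFactors := fun q hq =>
      Nat.mem_primeFactors.2 ⟨(hS q hq).1, (hS q hq).2.1, by omega⟩
    calc ∏ q ∈ S, q ≤ ∏ q ∈ n.primeFactors, q :=
          Finset.prod_le_prod_of_subset_of_one_le' h2 fun q hq _ =>
            (Nat.prime_of_mem_primeFactors hq).one_le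
      _ ≤ n := Nat.le_of_dvd (by omega) (Nat.prod_primeFactors_dvd n)
  have h3 : Real.log X ^ S.card ≤ (X : ℝ) ^ 4 := by
    calc Real.log X ^ S.card = ∏ _q ∈ S, Real.log X := by rw [Finset.prod_const]
      _ ≤ ∏ q ∈ S, (q : ℝ) := Finset.prod_le_prod (fun _ _ => hL0.le) fun q hq => (hS q hq).2.2.le
      _ = ((∏ q ∈ S, q : ℕ) : ℝ) := by push_cast; rfl
      _ ≤ ((X ^ 4 : ℕ) : ℝ) := by exact_mod_cast h1.trans hnX
      _ = (X : ℝ) ^ 4 := by push_cast; rfl
  have h4 : (S.card : ℝ) * Real.log (Real.log X) ≤ 4 * Real.log X := by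
    have h5 := Real.log_le_log (by positivity) h3
    rw [Real.log_pow, Real.log_pow] at h5
    exact_mod_cast h5
  calc ∑ q ∈ S, (1 : ℝ) / q ≤ ∑ _q ∈ S, 1 / Real.log X := by
        refine Finset.sum_le_sum fun q hq => ?_
        exact one_div_le_one_div_of_le hL0 (hS q hq).2.2.le
    _ = (S.card : ℝ) / Real.log X := by rw [Finset.sum_const, nsmul_eq_mul, mul_one_div]
    _ ≤ 4 / Real.log (Real.log X) := by
        rw [div_le_div_iff₀ hL0 hLL0]
        exact h4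

open scoped Classical in
/-- primes in the class given by a linear divisibility -/
lemma bt_class : ∃ C : ℝ, 0 < C ∧ ∀ Z r a h : ℕ, 1 ≤ r → 2 ≤ Z → r ^ 2 ≤ Z →
    Nat.Coprime a h →
    (((Icc 1 Z).filter (fun P => P.Prime ∧ r ∣ a * P + h)).card : ℝ) ≤
      C * Z / ((Nat.totient r : ℝ) * Real.log Z) := by
  obtain ⟨C, hC, hb⟩ := bti
  refine ⟨C, hC, fun Z r a h hr hZ hrZ hco => ?_⟩
  rcases ((Icc 1 Z).filter (fun P => P.Prime ∧ r ∣ a * P + h)).eq_empty_or_nonempty with he | ⟨P₀, hP₀⟩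
  · rw [he, card_empty, Nat.cast_zero]
    have : 0 < Real.log Z := Real.log_pos (by exact_mod_cast (by omega : 1 < Z))
    positivity
  · refine le_trans (Nat.cast_le.2 (card_le_card ?_)) (hb r P₀ Z hr hZ hrZ)
    intro P hP
    rw [mem_filter] at hP hP₀ ⊢
    exact ⟨hP.1, hP.2.1, cls hco hP.2.2 hP₀.2.2⟩

lemma tot_sq {q : ℕ} (hq : q.Prime) : (q : ℝ) ^ 2 / 2 ≤ (Nat.totient (q ^ 2) : ℝ) := by
  rw [Nat.totient_prime_pow hq (by norm_num)]
  have h2 : (2 : ℝ) ≤ q := by exact_mod_cast hq.two_le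
  push_cast [Nat.cast_sub hq.one_le]
  norm_num
  nlinarith

lemma tot_one {q : ℕ} (hq : q.Prime) : (q : ℝ) / 2 ≤ (Nat.totient q : ℝ) := by
  rw [Nat.totient_prime hq]
  have h2 : (2 : ℝ) ≤ q := by exact_mod_cast hq.two_le
  push_cast [Nat.cast_sub hq.one_le]
  linarith

lemma sum_inv_sq {K y : ℕ} (hK : 1 ≤ K) (S : Finset ℕ) (hS : ∀ q ∈ S, K < q ∧ q ≤ y) :
    ∑ q ∈ S, (1 : ℝ) / (q : ℝ) ^ 2 ≤ 1 / K := by
  calc ∑ q ∈ S, (1 : ℝ) / (q : ℝ) ^ 2 ≤ ∑ q ∈ Ioc K (y + K), ((q : ℝ) ^ 2)⁻¹ := by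
        rw [Finset.sum_congr rfl fun q _ => one_div _]
        apply Finset.sum_le_sum_of_subset_of_nonneg
        · intro q hq
          rw [mem_Ioc]
          have := hS q hq
          omega
        · intro q _ _
          positivity
    _ ≤ (K : ℝ)⁻¹ - ((y + K : ℕ) : ℝ)⁻¹ := sum_Ioc_inv_sq_le_sub (by omega) (by omega)
    _ ≤ 1 / K := by
        rw [one_div]
        have : (0 : ℝ) ≤ ((y + K : ℕ) : ℝ)⁻¹ := by positivity
        linarith

open scoped Classical in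
/-- squares of primes of `QS M y z` dividing `a P + h` -/
lemma sq_count : ∃ C : ℝ, 0 < C ∧ ∀ M y z Z a h : ℕ, 1 ≤ y → 2 ≤ Z → z ^ 4 ≤ Z →
    Nat.Coprime a h →
    (((Icc 1 Z).filter (fun P => P.Prime ∧ ∃ q ∈ QS M y z, q ^ 2 ∣ a * P + h)).card : ℝ) ≤
      C / y * (Z / Real.log Z) := by
  obtain ⟨C, hC, hb⟩ := bt_class
  refine ⟨2 * C, by positivity, fun M y z Z a h hy hZ hzZ hco => ?_⟩
  have hlog : 0 < Real.log Z := Real.log_pos (by exact_mod_cast (by omega : 1 < Z))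
  have hZ0 : (0 : ℝ) < Z := by exact_mod_cast (by omega : 0 < Z)
  have hsub : (Icc 1 Z).filter (fun P => P.Prime ∧ ∃ q ∈ QS M y z, q ^ 2 ∣ a * P + h) ⊆
      (QS M y z).biUnion (fun q => (Icc 1 Z).filter (fun P => P.Prime ∧ q ^ 2 ∣ a * P + h)) := by
    intro P hP
    rw [mem_filter] at hP
    obtain ⟨h1, h2, q, hq, h3⟩ := hP
    exact mem_biUnion.2 ⟨q, hq, mem_filter.2 ⟨h1, h2, h3⟩⟩
  calc _ ≤ (((QS M y z).biUnion (fun q => (Icc 1 Z).filter
        (fun P => P.Prime ∧ q ^ 2 ∣ a * P + h))).card : ℝ) := Nat.cast_le.2 (card_le_card hsub)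
    _ ≤ ∑ q ∈ QS M y z, (((Icc 1 Z).filter (fun P => P.Prime ∧ q ^ 2 ∣ a * P + h)).card : ℝ) := by
        rw [← Nat.cast_sum]
        exact Nat.cast_le.2 card_biUnion_le
    _ ≤ ∑ q ∈ QS M y z, (2 * C * (Z / Real.log Z)) * (1 / (q : ℝ) ^ 2) := by
        refine Finset.sum_le_sum fun q hq => ?_
        rw [mem_QS] at hq
        have hq0 : (0 : ℝ) < q := by exact_mod_cast hq.2.1.pos
        have h1 := hb Z (q ^ 2) a h (Nat.one_le_pow _ _ hq.2.1.pos) hZ (by
          calc (q ^ 2) ^ 2 = q ^ 4 := by ring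
            _ ≤ z ^ 4 := Nat.pow_le_pow_left hq.1.2 4
            _ ≤ Z := hzZ) hco
        refine h1.trans ?_
        have h2 := tot_sq hq.2.1
        calc C * Z / ((Nat.totient (q ^ 2) : ℝ) * Real.log Z) ≤
              C * Z / (((q : ℝ) ^ 2 / 2) * Real.log Z) := by gcongr
          _ = _ := by field_simp
    _ = (2 * C * (Z / Real.log Z)) * ∑ q ∈ QS M y z, 1 / (q : ℝ) ^ 2 := by rw [Finset.mul_sum]
    _ ≤ (2 * C * (Z / Real.log Z)) * (1 / y) := by
        gcongr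
        exact sum_inv_sq hy _ (fun q hq => (mem_QS.1 hq).1)
    _ = _ := by ring

open scoped Classical in
/-- the sum of `1 / p` over the primes `K < p ≤ y` dividing `a P + h` is rarely large -/
lemma growth_count : ∃ C : ℝ, 0 < C ∧ ∀ K y Z a h : ℕ, 1 ≤ K → 2 ≤ Z → y ^ 2 ≤ Z →
    Nat.Coprime a h → ∀ η : ℝ, 0 < η →
    (((Icc 1 Z).filter (fun P => P.Prime ∧ η <
      ∑ p ∈ (Ioc K y).filter (fun p => p.Prime ∧ p ∣ a * P + h), (1 : ℝ) / p)).card : ℝ) ≤
      C / (K * η) * (Z / Real.log Z) := by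
  obtain ⟨C, hC, hb⟩ := bt_class
  refine ⟨2 * C, by positivity, fun K y Z a h hK hZ hyZ hco η hη => ?_⟩
  have hlog : 0 < Real.log Z := Real.log_pos (by exact_mod_cast (by omega : 1 < Z))
  have hZ0 : (0 : ℝ) < Z := by exact_mod_cast (by omega : 0 < Z)
  have hK0 : (0 : ℝ) < K := by exact_mod_cast (by omega : 0 < K)
  set S := (Icc 1 Z).filter (fun P => P.Prime ∧ η <
      ∑ p ∈ (Ioc K y).filter (fun p => p.Prime ∧ p ∣ a * P + h), (1 : ℝ) / p) with hS
  have h1 : (S.card : ℝ) * η ≤ 2 * C * (Z / Real.log Z) * (1 / K) := by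
    calc (S.card : ℝ) * η = ∑ _P ∈ S, η := by rw [Finset.sum_const, nsmul_eq_mul]
      _ ≤ ∑ P ∈ S, ∑ p ∈ (Ioc K y).filter (fun p => p.Prime ∧ p ∣ a * P + h), (1 : ℝ) / p :=
          Finset.sum_le_sum fun P hP => (mem_filter.1 hP).2.2.le
      _ = ∑ P ∈ S, ∑ p ∈ (Ioc K y).filter Nat.Prime,
            (if p ∣ a * P + h then (1 : ℝ) / p else 0) := by
          refine Finset.sum_congr rfl fun P _ => ?_
          rw [← Finset.sum_filter, Finset.filter_filter]
      _ = ∑ p ∈ (Ioc K y).filter Nat.Prime, ∑ P ∈ S,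
            (if p ∣ a * P + h then (1 : ℝ) / p else 0) := Finset.sum_comm
      _ ≤ ∑ p ∈ (Ioc K y).filter Nat.Prime, (2 * C * (Z / Real.log Z)) * (1 / (p : ℝ) ^ 2) := by
          refine Finset.sum_le_sum fun p hp => ?_
          rw [mem_filter, mem_Ioc] at hp
          have hp0 : (0 : ℝ) < p := by exact_mod_cast hp.2.pos
          rw [← Finset.sum_filter, Finset.sum_const, nsmul_eq_mul]
          have h2 := hb Z p a h hp.2.one_le hZ
            ((Nat.pow_le_pow_left hp.1.2 2).trans hyZ) hco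
          have h3 : (((S.filter (fun P => p ∣ a * P + h)).card : ℕ) : ℝ) ≤
              C * Z / ((Nat.totient p : ℝ) * Real.log Z) := by
            refine le_trans (Nat.cast_le.2 (card_le_card ?_)) h2
            intro P hP
            rw [mem_filter, hS, mem_filter] at hP
            exact mem_filter.2 ⟨hP.1.1, hP.1.2.1, hP.2⟩
          calc _ ≤ C * Z / ((Nat.totient p : ℝ) * Real.log Z) * (1 / p) := by gcongr
            _ ≤ C * Z / (((p : ℝ) / 2) * Real.log Z) * (1 / p) := by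
                have := tot_one hp.2
                gcongr
            _ = _ := by field_simp
      _ = (2 * C * (Z / Real.log Z)) * ∑ p ∈ (Ioc K y).filter Nat.Prime, (1 / (p : ℝ) ^ 2) := by
          rw [Finset.mul_sum]
      _ ≤ 2 * C * (Z / Real.log Z) * (1 / K) := by
          gcongr
          exact sum_inv_sq hK _ (fun q hq => mem_Ioc.1 (mem_filter.1 hq).1)
  calc (S.card : ℝ) = (S.card : ℝ) * η / η := by field_simp
    _ ≤ (2 * C * (Z / Real.log Z) * (1 / K)) / η := by gcongr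
    _ = _ := by field_simp

end Pool.Agent.SGK
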